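import Pool.Agent.helper59.ZB.SpecH
import Pool.Agent.helper59.LZ.ZAG

/-!
# Row zbh:HAGT (MP_baa4d7_al): the numbers `A_g`, T-form
-/

set_option autoImplicit false

namespace Pool.Agent.GB

open Pool.Agent.helper58.DC Pool.Agent.DI Pool.Agent.GR Pool.Agent.OB Pool.Agent.DR Pool.Agent.FI Pool.Agent.FI3 Pool.Agent.FI4 Pool.Agent.LE Pool.Agent.BR

/-- the `p`-part is a power -/
theorem HAGT_part {G : Type} [Group G] [Finite G] {p : ℕ} (hp : p.Prime) {u v : G} (hu : PEl p u) (hv : PReg p v)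
    (huv : u * v = v * u) : u ∈ Subgroup.zpowers (u * v) := by
  obtain ⟨k, hk⟩ := hu
  have hcop : Nat.Coprime (p ^ k) (orderOf v) := Nat.Coprime.pow_left k ((Nat.Prime.coprime_iff_not_dvd hp).2 hv)
  obtain ⟨e, he1, he2⟩ := Nat.chineseRemainder hcop 1 0
  have h1 : u ^ e = u := by
    have h2 : orderOf u ∣ p ^ k := orderOf_dvd_of_pow_eq_one hk
    have h3 : e ≡ 1 [MOD orderOf u] := he1.of_dvd h2
    have h4 := pow_eq_pow_iff_modEq.2 h3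
    rwa [pow_one] at h4
  have h2 : v ^ e = 1 := orderOf_dvd_iff_pow_eq_one.1 ((Nat.modEq_zero_iff_dvd).1 he2)
  refine Subgroup.mem_zpowers_iff.2 ⟨(e : ℤ), ?_⟩
  rw [zpow_natCast, (show Commute u v from huv).mul_pow, h1, h2, mul_one]

theorem HAGT (hHDT : HDT_stmt) (hVN1 : VN1_stmt) (hEXB : EXB_stmt) (hSBI : SBI_stmt) (hQEI : QEI_stmt) (hQCE : QCE_stmt)
    (hFEQ : FEQ_stmt) (hFUZ : FUZ_stmt) (hB2 : B2_stmt) (hC3 : C3_stmt) : HAGT_stmt := by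
  classical
  intro p M hS G _ _ D T x θ χ hZ z hz η₀ hη₀ g
  have hzD : z ∈ D := hZ.tle hz
  have hzC : z ∈ cz D := hZ.tcz hz
  obtain ⟨w₀, hw₀⟩ := hHDT p M hS G D x θ χ hZ.rt
  have hCZ : cz D ≤ cz (D ⊓ cz D) := fun g hg =>
    Subgroup.mem_centralizer_iff.2 fun h hh => Subgroup.mem_centralizer_iff.1 hg h hh.1
  have hzK : z ∈ Cz (⊤ : Subgroup G) z := ZAG_mem.2 rfl
  have hzc : ∀ h ∈ Cz (⊤ : Subgroup G) z, z * h = h * z := fun h hh => ZAG_mem.1 hh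
  have hcen : Cen (Cz (⊤ : Subgroup G) z) z := fun l hl => (hzc l hl).symm
  have hpz : ∃ k : ℕ, z ^ p ^ k = 1 := by
    obtain ⟨k, hk⟩ := hZ.rt.dfa.pgrp ⟨z, hzD⟩
    exact ⟨k, by simpa using congrArg Subtype.val hk⟩
  have hkCF : CF (Cz (⊤ : Subgroup G) z) (kap p (Cz (⊤ : Subgroup G) z) η₀) := ZAG_CF fun h hh y => ((hB2 G _).2 η₀ hη₀.1).2.1 y h hh
  have hkint : ∀ y, IsIntegral ℤ (kap p (Cz (⊤ : Subgroup G) z) η₀ y) := ZAG_int ((hB2 G _).2 η₀ hη₀.1).2.2.1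
  have hwCF := ZAG_CFz hkCF hzK hzc
  -- the element is outside of `D ⊓ cz D`
  have hout : g * z * g⁻¹ ∉ D ⊓ cz D → ag p (Cz (⊤ : Subgroup G) z) η₀ θ z g = 0 := by
    intro hgz
    unfold ag cc
    rw [finsum_eq_zero_of_forall_eq_zero, zero_div]
    intro y
    by_cases hv : z⁻¹ * (g⁻¹ * y * g) ∈ Cz (⊤ : Subgroup G) z ∧ PReg p (z⁻¹ * (g⁻¹ * y * g))
    · by_cases hy : y ∈ cz D
      · obtain ⟨v, hvdef⟩ : ∃ v, v = z⁻¹ * (g⁻¹ * y * g) := ⟨_, rfl⟩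
        rw [← hvdef] at hv
        have hyv : y = (g * z * g⁻¹) * (g * v * g⁻¹) := by rw [hvdef]; group
        have h1 : PEl p (g * z * g⁻¹) := by
          obtain ⟨k, hk⟩ := hpz
          exact ⟨k, by rw [conj_pow, hk]; group⟩
        have h2 : PReg p (g * v * g⁻¹) := ZAG_reg.2 hv.2
        have h3 : (g * z * g⁻¹) * (g * v * g⁻¹) = (g * v * g⁻¹) * (g * z * g⁻¹) := by
          have h4 := hzc v hv.1
          calc (g * z * g⁻¹) * (g * v * g⁻¹) = g * (z * v) * g⁻¹ := by group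
            _ = g * (v * z) * g⁻¹ := by rw [h4]
            _ = (g * v * g⁻¹) * (g * z * g⁻¹) := by group
        have h6 : g * z * g⁻¹ ∈ cz D := by
          have h7 := HAGT_part hS.pr h1 h2 h3
          rw [← hyv] at h7
          exact (Subgroup.zpowers_le.2 hy) h7
        have h8 : g * v * g⁻¹ ∈ Cz (cz D) (g * z * g⁻¹) := by
          refine Subgroup.mem_inf.2 ⟨?_, ?_⟩
          · have h9 := (cz D).mul_mem ((cz D).inv_mem h6) hy
            rw [hyv, inv_mul_cancel_left] at h9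
            exact h9
          · rw [Subgroup.mem_centralizer_iff]
            intro w hw
            rw [Set.mem_singleton_iff.1 hw]
            exact h3
        have h5 := hVN1 p M hS G (cz D) (D ⊓ cz D) w₀ hCZ θ hZ.rt.th hw₀ θ ⟨hZ.rt.th, SB.refl _ _⟩ _ h6 h1 hgz _ h8 h2
        rw [← hyv] at h5
        rw [h5, mul_zero]
      · rw [hZ.rt.th.1 y hy, mul_zero]
    · have h1 : kap p (Cz (⊤ : Subgroup G) z) η₀ (z⁻¹ * (g⁻¹ * y * g)) = 0 := by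
        unfold kap
        exact if_neg hv
      show kap p (Cz (⊤ : Subgroup G) z) η₀ (z⁻¹ * (g⁻¹ * y * g)) * θ y = 0
      rw [h1, zero_mul]
  -- the element is in `D`
  have hin : g * z * g⁻¹ ∈ D ⊓ cz D → ∃ ψ' ∈ IrrOn (Cz (⊤ : Subgroup G) z), SB M (Cz (⊤ : Subgroup G) z) (cjF g⁻¹ θ) ψ' ∧
      InM M (ag p (Cz (⊤ : Subgroup G) z) η₀ θ z g - (ψ' z / ψ' 1) * cc ψ' (kap p (Cz (⊤ : Subgroup G) z) η₀)) := by
    intro hgz
    obtain ⟨-, ⟨f1, -⟩, -, f2, -⟩ := hFEQ G M g⁻¹ 1 D D (cz D) θ θ θ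
    have hzQ : z ∈ cjS g⁻¹ D := by
      rw [mem_cjS, inv_inv]
      exact hgz.1
    have hczQ : cz (cjS g⁻¹ D) ≤ Cz (⊤ : Subgroup G) z := by
      intro y hy
      rw [Subgroup.mem_centralizer_iff] at hy
      exact ZAG_mem.2 (hy z hzQ)
    have hQK : cjS g⁻¹ D ≤ Cz (⊤ : Subgroup G) z := by
      intro q hq
      rw [mem_cjS, inv_inv] at hq
      have h1 := (Subgroup.mem_centralizer_iff.1 hgz.2 _ hq).symm
      rw [ZAG_mem]
      calc z * q = g⁻¹ * ((g * z * g⁻¹) * (g * q * g⁻¹)) * g := by group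
        _ = g⁻¹ * ((g * q * g⁻¹) * (g * z * g⁻¹)) * g := by rw [h1]
        _ = q * z := by group
    have hpQ : IsPGroup p (cjS g⁻¹ D) := hZ.rt.dfa.pgrp.map _
    have hθ' : cjF g⁻¹ θ ∈ IrrOn (Cz (⊤ : Subgroup G) z ⊓ cz (cjS g⁻¹ D)) := by
      rw [inf_eq_right.2 hczQ, f1]
      exact f2.1 hZ.rt.th
    obtain ⟨ψ', hψ', hsb⟩ := hEXB p M hS G (Cz (⊤ : Subgroup G) z) (cjS g⁻¹ D) hpQ hQK (cjF g⁻¹ θ) hθ'
    refine ⟨ψ', hψ', hsb, ?_⟩
    have h1 : ag p (Cz (⊤ : Subgroup G) z) η₀ θ z g = cc (cjF g⁻¹ θ) (fun y => kap p (Cz (⊤ : Subgroup G) z) η₀ (z⁻¹ * y)) := by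
      unfold cjF
      rw [cc_funMap]
      unfold ag
      rw [inv_inv]
    have hne : ψ' 1 ≠ 0 := by
      obtain ⟨n, hn, he, -⟩ := ((hB2 G _).2 ψ' hψ').1
      rw [he]
      exact_mod_cast hn.ne'
    rw [h1, ← ZAG_cz hQCE hzK hcen hψ' hne]
    exact (hSBI p M hS G _ _ _ hsb).1 _ hwCF fun y => IntAt.of_isIntegral hS (hkint _)
  refine ⟨fun h => ?_, fun hgz hsb' => ?_⟩
  · by_cases hgz : g * z * g⁻¹ ∈ D ⊓ cz D
    · have hnsb : ¬ SB M (Cz (⊤ : Subgroup G) z) (cjF g⁻¹ θ) θ := by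
        intro hsb
        obtain ⟨τ, hτ, k, hk, hgk⟩ := hFUZ p M hS G D x θ χ hZ.rt z hzD hzC g hgz.1 hgz.2 hsb.symm
        have h1 : g * z * g⁻¹ = τ * z * τ⁻¹ := by
          have h2 : z * k = k * z := ZAG_mem.1 hk
          rw [hgk]
          calc τ * k * z * (τ * k)⁻¹ = τ * (k * z) * k⁻¹ * τ⁻¹ := by group
            _ = τ * (z * k) * k⁻¹ * τ⁻¹ := by rw [h2]
            _ = τ * z * τ⁻¹ := by group
        have h2 : g * z * g⁻¹ ∈ T := by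
          rw [h1]
          exact hZ.tnz τ hτ.1 z hz
        rcases h with h | h
        · exact h h2
        · exact h hsb
      obtain ⟨ψ', hψ', hsb, hm⟩ := hin hgz
      have h1 : ψ' ∉ Bl M (Cz (⊤ : Subgroup G) z) θ := fun h => hnsb (hsb.trans h.2)
      obtain ⟨-, q2, -, -⟩ := hQEI p M hS G (Cz (⊤ : Subgroup G) z) (Bl M (Cz (⊤ : Subgroup G) z) θ) (Q1_BC M _ 1 θ).1
      have h2 := (q2 η₀ hη₀ ψ' hψ' h1).2
      rw [ZAG_EE h2, mul_zero, sub_zero] at hm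
      exact hm
    · rw [hout hgz]
      exact InM.zero hS
  · obtain ⟨ψ', hψ', hsb, hm⟩ := hin ⟨hZ.tle hgz, hZ.tcz hgz⟩
    have h1 : SB M (Cz (⊤ : Subgroup G) z) ψ' θ := hsb.symm.trans hsb'
    have h2 := (hSBI p M hS G _ _ _ h1).1 _ hkCF fun y => IntAt.of_isIntegral hS (hkint _)
    obtain ⟨k, hk⟩ := hpz
    have hne : ψ' 1 ≠ 0 := by
      obtain ⟨n, hn, he, -⟩ := ((hB2 G _).2 ψ' hψ').1
      rw [he]
      exact_mod_cast hn.ne'
    have h3 : (ψ' z / ψ' 1) ^ p ^ k = 1 := by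
      have h4 := ZAG_pow hQCE hzK hcen hψ' hne (p ^ k)
      rw [hk] at h4
      exact mul_right_cancel₀ hne (by rw [← h4, one_mul])
    have h5 : InM M (ψ' z / ψ' 1 - 1) := ZAG_rou hS (hQCE G _ z hzK hcen ψ' hψ').2.2 h3
    have h6 : IntAt M (cc ψ' (kap p (Cz (⊤ : Subgroup G) z) η₀)) :=
      IntAt.of_isIntegral hS ((hC3 G).1 _ ψ' hψ' _ hkCF.1 hkint)
    have h7 := InM.add hS (InM.add hS hm (InM.mul_right hS h5 h6)) h2
    have h8 : ag p (Cz (⊤ : Subgroup G) z) η₀ θ z g - (ψ' z / ψ' 1) * cc ψ' (kap p (Cz (⊤ : Subgroup G) z) η₀) +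
        (ψ' z / ψ' 1 - 1) * cc ψ' (kap p (Cz (⊤ : Subgroup G) z) η₀) +
        (cc ψ' (kap p (Cz (⊤ : Subgroup G) z) η₀) - cc θ (kap p (Cz (⊤ : Subgroup G) z) η₀)) =
        ag p (Cz (⊤ : Subgroup G) z) η₀ θ z g - cc θ (kap p (Cz (⊤ : Subgroup G) z) η₀) := by ring
    rwa [h8] at h7

end Pool.Agent.GB
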