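import Pool.Agent.helper59.ZB.SpecH

/-!
# Row zbh:HCNT (MP_baa4d7_al): the canonical character of the block `b(θ)` of `cz D`
-/

set_option autoImplicit false

namespace Pool.Agent.GB

open Pool.Agent.helper58.DC Pool.Agent.DI Pool.Agent.GR Pool.Agent.OB Pool.Agent.DR Pool.Agent.FI Pool.Agent.FI3 Pool.Agent.FI4 Pool.Agent.LE Pool.Agent.BR

/-- the linear character of a central subgroup -/
noncomputable def HCNT_f {G : Type} [Group G] {D : Subgroup G} {θ' : G → ℂ} (h1 : θ' 1 ≠ 0)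
    (hm : ∀ a ∈ D, ∀ b ∈ D, θ' (a * b) * θ' 1 = θ' a * θ' b) : D →* ℂ where
  toFun u := θ' u / θ' 1
  map_one' := div_self h1
  map_mul' a b := by
    have h := hm a a.2 b b.2
    show θ' ((a : G) * (b : G)) / θ' 1 = θ' a / θ' 1 * (θ' b / θ' 1)
    field_simp
    exact h

theorem HCNT (hHDT : HDT_stmt) (hGDC : GDC_stmt) (hUNQ : Pool.Agent.FI.UNQ_stmt) (hQCE : QCE_stmt) (hB2 : B2_stmt) : HCNT_stmt := by
  classical
  intro p M hS G _ _ D x θ χ hR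
  obtain ⟨y, hy⟩ := hHDT p M hS G D x θ χ hR
  obtain ⟨Z, hZ⟩ : ∃ Z : Subgroup G, Z = D ⊓ cz D := ⟨_, rfl⟩
  rw [← hZ] at hy
  have hZD : Z ≤ D := by
    rw [hZ]
    exact inf_le_left
  have hZC : Z ≤ cz D := by
    rw [hZ]
    exact inf_le_right
  have hCZ : cz D ≤ cz Z := fun g hg => Subgroup.mem_centralizer_iff.2 fun h hh => Subgroup.mem_centralizer_iff.1 hg h (hZD hh)
  have hgood : Good p M Z (cz D) θ := hGDC p M hS G (cz D) Z y hCZ θ hR.th hy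
  have hcen : ∀ u ∈ Z, Cen (cz D) u := fun u hu l hl => by
    rw [Subgroup.mem_centralizer_iff] at hl
    exact (hl u (hZD hu)).symm
  have hne : ∀ θ' ∈ Bl M (cz D) θ, θ' 1 ≠ 0 := by
    intro θ' hθ'
    obtain ⟨n, hn, he, -⟩ := ((hB2 G _).2 θ' hθ'.1).1
    rw [he]
    exact_mod_cast hn.ne'
  have hmul : ∀ θ' ∈ Bl M (cz D) θ, ∀ a ∈ Z, ∀ b, θ' (a * b) * θ' 1 = θ' a * θ' b := fun θ' hθ' a ha b =>
    (hQCE G (cz D) a (hZC ha) (hcen a ha) θ' hθ'.1).1 b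
  obtain ⟨F, hF⟩ : ∃ F : ↥(Bl M (cz D) θ) → (Z →* ℂˣ), ∀ θ' (u : Z), ((F θ' u : ℂˣ) : ℂ) = (θ' : G → ℂ) u / (θ' : G → ℂ) 1 :=
    ⟨fun θ' => (HCNT_f (D := Z) (hne θ' θ'.2) (fun a ha b _ => hmul θ' θ'.2 a ha b)).toHomUnits, fun θ' u => rfl⟩
  have hcard : Nat.card (Z →* ℂˣ) = Nat.card Z := by
    let _ : CommGroup Z := { (inferInstance : Group Z) with mul_comm := fun a b => Subtype.ext (hcen b b.2 a (hZC a.2)) }
    exact CommGroup.card_monoidHom_of_hasEnoughRootsOfUnity Z ℂ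
  have hfin : Finite (Z →* ℂˣ) := Nat.finite_of_card_ne_zero (by rw [hcard]; exact Nat.card_pos.ne')
  have hinj : Function.Injective F := by
    intro θ' θ'' h
    refine Subtype.ext (hUNQ p M hS G (cz D) Z y hCZ θ hR.th hy θ' θ'.2 θ'' θ''.2 fun d hd => ?_)
    have e3 : (θ' : G → ℂ) d / (θ' : G → ℂ) 1 = (θ'' : G → ℂ) d / (θ'' : G → ℂ) 1 := by
      rw [← hF θ' ⟨d, hd⟩, ← hF θ'' ⟨d, hd⟩, h]
    exact (div_eq_div_iff (hne θ' θ'.2) (hne θ'' θ''.2)).1 e3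
  have hbij : Function.Bijective F := hinj.bijective_of_nat_card_le (by
    rw [hcard, Nat.card_coe_set_eq, hgood.card])
  obtain ⟨θ₁, hθ₁⟩ := hbij.2 1
  refine ⟨θ₁, θ₁.2, fun u hu huC => ?_⟩
  have huZ : u ∈ Z := by
    rw [hZ]
    exact Subgroup.mem_inf.2 ⟨hu, huC⟩
  have h1 := hF θ₁ ⟨u, huZ⟩
  rw [hθ₁, MonoidHom.one_apply, Units.val_one] at h1
  exact ((div_eq_one_iff_eq (hne θ₁ θ₁.2)).1 h1.symm)

end Pool.Agent.GB
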