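import Pool.Agent.helper59.ZB.SpecH

/-!
# Row zbh:HDT (MP_baa4d7_al): the block of `cz D` has the central defect group `D ⊓ cz D`
-/

set_option autoImplicit false

namespace Pool.Agent.GB

open Pool.Agent.helper58.DC Pool.Agent.DI Pool.Agent.GR Pool.Agent.OB Pool.Agent.DR Pool.Agent.FI Pool.Agent.FI3 Pool.Agent.FI4 Pool.Agent.LE Pool.Agent.BR

/-- Row HDT. -/
theorem HDT (h3 : CLS_stmt) (h2 : DCM_stmt) (h4 : SYL_stmt) : HDT_stmt := by
  intro p M hs G _ _ D x θ χ hR
  have : Fact p.Prime := ⟨hs.pr⟩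
  have hsyl := h4 p G
  have hθ0 : ∀ g, g ∉ cz D → θ g = 0 := hR.th.1
  have hDp : IsPGroup p D := hR.dfa.pgrp
  set L : Subgroup G := cz D with hL
  have hZp : IsPGroup p (D ⊓ L : Subgroup G) := hDp.to_le inf_le_left
  -- the center is in all centralizers
  have hZC : ∀ y ∈ L, D ⊓ L ≤ Cz L y := by
    intro y hy d hd
    refine Subgroup.mem_inf.2 ⟨(Subgroup.mem_inf.1 hd).2, ?_⟩
    rw [Subgroup.mem_centralizer_iff]
    intro z hz
    rw [Set.mem_singleton_iff] at hz
    subst hz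
    exact ((Subgroup.mem_centralizer_iff.1 hy) d (Subgroup.mem_inf.1 hd).1).symm
  have hDC : ∀ y ∈ L, D ≤ Cz ⊤ y := by
    intro y hy d hd
    refine Subgroup.mem_inf.2 ⟨Subgroup.mem_top _, ?_⟩
    rw [Subgroup.mem_centralizer_iff]
    intro z hz
    rw [Set.mem_singleton_iff] at hz
    subst hz
    exact ((Subgroup.mem_centralizer_iff.1 hy) d hd).symm
  -- existence
  set f : G → ℂ := rsH L (cls ⊤ x) with hf
  have hfCF : CF L f := by
    refine ⟨fun h hh z => ?_, fun z hz => ?_⟩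
    · rw [hf]
      unfold rsH
      have e : h * z * h⁻¹ ∈ L ↔ z ∈ L := by
        constructor
        · intro hz
          have := L.mul_mem (L.mul_mem (L.inv_mem hh) hz) hh
          have e2 : h⁻¹ * (h * z * h⁻¹) * h = z := by group
          rwa [e2] at this
        · intro hz
          exact L.mul_mem (L.mul_mem hh hz) (L.inv_mem hh)
      by_cases hz : z ∈ L
      · rw [if_pos hz, if_pos (e.2 hz)]
        exact (h3 G ⊤ x).1 h (Subgroup.mem_top h) z
      · rw [if_neg hz, if_neg (fun h' => hz (e.1 h'))]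
    · rw [hf]
      unfold rsH
      rw [if_neg hz]
  have hfint : ∀ z, IsIntegral ℤ (f z) := by
    intro z
    rw [hf]
    unfold rsH
    by_cases hz : z ∈ L
    · rw [if_pos hz]
      exact (h3 G ⊤ x).2.2.1 z
    · rw [if_neg hz]
      exact isIntegral_zero
  have hfat : ∀ z, IntAt M (f z) := fun z => IntAt.of_isIntegral hs (hfint z)
  have hccθ : cc θ f = omega θ x := by
    rw [(h3 G ⊤ x).2.2.2.2.2.2.2.1 θ]
    unfold cc
    congr 1
    refine finsum_congr fun z => ?_
    rw [hf]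
    unfold rsH
    by_cases hz : z ∈ L
    · rw [if_pos hz]
    · rw [if_neg hz, hθ0 z hz, mul_zero, mul_zero]
  have hω : ¬ InM M (omega θ x) := by
    intro h
    obtain ⟨a, ha, e⟩ := hR.ind x
    apply hR.dfa.ne
    have e2 : omega χ x = omega θ x - (a : ℂ) := by rw [← e]; ring
    rw [e2]
    exact h.sub hs (InM.coe hs ha)
  have hex : ∃ y, ¬ InM M (f y) ∧ ¬ InM M (cc θ (cls L y)) := by
    by_contra hcon
    push Not at hcon
    apply hω
    rw [← hccθ]
    refine (((h2 G L M p hs).1 θ f hfCF.1 hfat ?_).2 ?_)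
    · intro z
      exact IntAt.of_isIntegral hs ((h3 G L z).2.2.2.2.2.2.2.2 L le_rfl θ hR.th)
    · intro z
      by_cases hz : InM M (f z)
      · exact Or.inl hz
      · exact Or.inr (hcon z hz)
  obtain ⟨y, hy1, hy2⟩ := hex
  have hyL : y ∈ L := by
    by_contra hyn
    apply hy1
    rw [hfCF.2 y hyn]
    exact InM.zero hs
  have hyc : ∃ g : G, g * x * g⁻¹ = y := by
    rcases (h3 G ⊤ x).2.2.2.2.1 y with h | h
    · exfalso
      apply hy1
      rw [hf]
      unfold rsH
      rw [if_pos hyL, h]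
      exact InM.zero hs
    · obtain ⟨l, _, e⟩ := ((h3 G ⊤ x).2.2.2.1 y).1 h
      exact ⟨l, e⟩
  obtain ⟨g, hg⟩ := hyc
  have hle : D ⊓ L ≤ Cz L y := hZC _ hyL
  have hcard1 : Nat.card (D ⊓ L : Subgroup G) ≤ pp p (Cz L y) := (hsyl.1 _ _ hZp hle).1
  have hppD : pp p (Cz ⊤ y) = Nat.card D := by
    have e3 := (hsyl.2.2.2.2.2.1 ⊤ x g (Subgroup.mem_top _)).2
    rw [hg] at e3
    rw [e3]
    have e4 : Cz (⊤ : Subgroup G) x = Subgroup.centralizer {x} := by
      unfold Cz
      exact top_inf_eq _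
    rw [e4, hR.dfa.card]
  have hcard2 : pp p (Cz L y) ≤ Nat.card (D ⊓ L : Subgroup G) := by
    obtain ⟨S, -, hSC, hSp, hSc⟩ := hsyl.2.1 ⊥ (Cz L y) IsPGroup.of_bot bot_le
    have hSL : S ≤ L := fun s hs' => (Subgroup.mem_inf.1 (hSC hs')).1
    have hSn : S ≤ Subgroup.normalizer (D : Set G) := by
      intro s hs'
      have hsL := Subgroup.mem_centralizer_iff.1 (hSL hs')
      refine Subgroup.mem_normalizer_iff.2 fun d => ⟨fun hd => ?_, fun hd => ?_⟩
      · have e : s * d * s⁻¹ = d := by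
          rw [← hsL d hd]
          group
        rw [e]
        exact hd
      · have e1 : (s * d * s⁻¹) * s = s * (s * d * s⁻¹) := hsL _ hd
        have e2 : d = s * d * s⁻¹ := by
          have e3 : s * d = s * (s * d * s⁻¹) := by
            rw [← e1]
            group
          exact mul_left_cancel e3
        rw [e2]
        exact hd
    have hSDp : IsPGroup p (S ⊔ D : Subgroup G) := IsPGroup.to_sup_of_normal_right' hSp hDp hSn
    have hSD : S ⊔ D ≤ Cz ⊤ y := by
      refine sup_le (fun s hs' => ?_) (hDC y hyL)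
      exact Subgroup.mem_inf.2 ⟨Subgroup.mem_top _, (Subgroup.mem_inf.1 (hSC hs')).2⟩
    have h5 := (hsyl.1 _ _ hSDp hSD).1
    rw [hppD] at h5
    have h6 : D = S ⊔ D := by
      refine Subgroup.eq_of_le_of_card_ge le_sup_right h5
    have hSleD : S ≤ D := by
      rw [h6]
      exact le_sup_left
    rw [← hSc]
    exact Subgroup.card_le_of_le (le_inf hSleD hSL)
  refine ⟨y, ?_, hyL, hle, hZp, le_antisymm hcard1 hcard2, hy2, ?_⟩
  · have := (hsyl.2.2.2.2.2.2.2.2 x g).1 hR.dfa.reg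
    rwa [hg] at this
  · intro z hz _
    exact (hsyl.1 _ _ hZp (hZC z hz)).1

end Pool.Agent.GB
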