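import Pool.Agent.helper59.ZB.SpecH
import Pool.Agent.helper59.BR.HVN

/-!
# Row zbh:HVNT (MP_baa4d7_al): the sum of the multiplicities, T-form
-/

set_option autoImplicit false

namespace Pool.Agent.GB

open Pool.Agent.helper58.DC Pool.Agent.DI Pool.Agent.GR Pool.Agent.OB Pool.Agent.DR Pool.Agent.FI Pool.Agent.FI3 Pool.Agent.FI4 Pool.Agent.LE Pool.Agent.BR

theorem HVNT (hHVAT : HVAT_stmt) (hHAIT : HAIT_stmt) (hHX0T : HX0T_stmt) (hZAX : ZAX_stmt) (hQRS : QRS_stmt) (hQCE : QCE_stmt)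
    (hSBI : SBI_stmt) (hC3 : C3_stmt) (hB2 : B2_stmt) : HVNT_stmt := by
  classical
  intro p M hS G _ _ D T x θ χ hZ z hz ψ₀ hψ₀ hunit
  have hzD : z ∈ D := hZ.tle hz
  have hzC : z ∈ cz D := hZ.tcz hz
  obtain ⟨K, hKdef⟩ : ∃ K : Subgroup G, K = Cz (⊤ : Subgroup G) z := ⟨_, rfl⟩
  have hzK : z ∈ K := by
    rw [hKdef]
    exact ZAG_mem.2 rfl
  have hcen : Cen K z := fun l hl => by
    rw [hKdef] at hl
    exact (ZAG_mem.1 hl).symm
  obtain ⟨η₀, hη₀, hk₀⟩ := hHX0T p M hS G D x θ χ hZ.rt z hzD hzC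
  rw [← hKdef] at hη₀ hk₀
  obtain ⟨N, hN, hva⟩ := hHVAT p M hS G D T x θ χ hZ z hz
  rw [← hKdef] at hva ⊢
  have hA0 : IntAt M ((Nat.card D : ℂ) * ψ₀ 1 / Nat.card G) := by
    have h1 : Cz (⊤ : Subgroup G) 1 = ⊤ := by
      refine eq_top_iff.2 fun g _ => ZAG_mem.2 ?_
      rw [one_mul, mul_one]
    have h := hHAIT p M hS G D x θ χ hZ.rt 1 D.one_mem (cz D).one_mem ψ₀ (by rw [h1]; exact hψ₀)
    rw [h1, Subgroup.card_top] at h
    exact h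
  have hA1 : IntAt M ((Nat.card D : ℂ) * η₀ 1 / Nat.card K) := by
    have h := hHAIT p M hS G D x θ χ hZ.rt z hzD hzC η₀ (by rw [← hKdef]; exact hη₀)
    rw [← hKdef] at h
    exact h
  have hfin : (Bl M K θ).Finite := (hB2 G K).1.subset fun ψ h => h.1
  have hG0 : (Nat.card G : ℂ) ≠ 0 := by exact_mod_cast Nat.card_pos.ne'
  have hψ1 : ψ₀ 1 ≠ 0 := by
    obtain ⟨n, hn, he, -⟩ := ((hB2 G _).2 ψ₀ hψ₀.1).1
    rw [he]
    exact_mod_cast hn.ne'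
  have hη1 : η₀ 1 ≠ 0 := by
    obtain ⟨n, hn, he, -⟩ := ((hB2 G _).2 η₀ hη₀.1).1
    rw [he]
    exact_mod_cast hn.ne'
  -- the unit
  obtain ⟨X, hX⟩ : ∃ X : ℂ, X = (Nat.card G : ℂ) * az p K η₀ ψ₀ z / ψ₀ 1 := ⟨_, rfl⟩
  have hk₀I : IntAt M (cc θ (kap p K η₀)) := by
    have h1 := (HVN_sbi hSBI hB2 hS hη₀.2 hη₀.1 (p := p)).intAt
    have h2 := IntAt.of_isIntegral hS (HVN_kap hC3 hB2 hη₀.1 hη₀.1 (p := p))
    have h3 := h2.sub hS h1
    rwa [sub_sub_cancel] at h3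
  have hX1 := hva η₀ hη₀ ψ₀ hψ₀
  rw [← hX] at hX1
  have hXn : ¬ InM M X := by
    intro h
    have h1 : InM M ((N : ℂ) * cc θ (kap p K η₀)) := by
      have h2 := h.sub hS hX1
      rwa [sub_sub_cancel] at h2
    rcases InM.or hS (IntAt.natCast hS N) hk₀I h1 with h2 | h2
    · exact hN ((InM.natCast hS N).1 h2)
    · exact hk₀ h2
  have hXI : IntAt M X := by
    have h1 := hX1.intAt.add hS ((IntAt.natCast hS N).mul hS hk₀I)
    rwa [sub_add_cancel] at h1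
  have hprod : ¬ InM M ((Nat.card D : ℂ) * az p K η₀ ψ₀ z) := by
    intro h
    have h1 : (Nat.card D : ℂ) * az p K η₀ ψ₀ z = ((Nat.card D : ℂ) * ψ₀ 1 / Nat.card G) * X := by
      rw [hX]
      field_simp
    rw [h1] at h
    rcases InM.or hS hA0 hXI h with h2 | h2
    · exact hunit h2
    · exact hXn h2
  -- the expansion
  have hax := hZAX p M hS G K θ η₀ hη₀ z hzK hcen ψ₀ hψ₀.1
  rw [finsum_mem_eq_finite_toFinset_sum _ hfin] at hax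
  have hexp : (Nat.card D : ℂ) * az p K η₀ ψ₀ z = ((Nat.card D : ℂ) * η₀ 1 / Nat.card K) *
      ∑ η ∈ hfin.toFinset, mt K ψ₀ η * (η z / η 1) * cc η₀ (kap p K η) := by
    rw [hax, Finset.mul_sum, Finset.mul_sum]
    refine Finset.sum_congr rfl fun η _ => ?_
    rw [HVN_EE, HVN_cc p K η₀ η hη1]
    ring
  rw [hexp] at hprod
  have hSn : ¬ InM M (∑ η ∈ hfin.toFinset, mt K ψ₀ η * (η z / η 1) * cc η₀ (kap p K η)) :=
    fun h => hprod (InM.mul_left hS hA1 h)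
  intro h
  apply hSn
  rw [finsum_mem_eq_finite_toFinset_sum _ hfin] at h
  have hdiff : InM M (∑ η ∈ hfin.toFinset, mt K ψ₀ η * (η z / η 1) * cc η₀ (kap p K η) -
      ∑ η ∈ hfin.toFinset, mt K ψ₀ η * cc θ (kap p K η)) := by
    rw [← Finset.sum_sub_distrib]
    refine InM.sum hS _ fun η hη => ?_
    rw [Set.Finite.mem_toFinset] at hη
    obtain ⟨r1, r2⟩ := HVN_rou hQCE hB2 hS hZ.rt.dfa.pgrp hzD hzK hcen hη.1
    have h2 : mt K ψ₀ η * (η z / η 1) * cc η₀ (kap p K η) - mt K ψ₀ η * cc θ (kap p K η) =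
        mt K ψ₀ η * ((η z / η 1 - 1) * cc η₀ (kap p K η) + (cc η₀ (kap p K η) - cc θ (kap p K η))) := by ring
    rw [h2]
    refine InM.mul_left hS (HVN_mt hQRS hS hψ₀.1 hη.1) (InM.add hS ?_ ?_)
    · exact InM.mul_right hS r1 (IntAt.of_isIntegral hS (HVN_kap hC3 hB2 hη₀.1 hη.1))
    · exact HVN_sbi hSBI hB2 hS hη₀.2 hη.1
  have h3 := hdiff.add hS h
  rwa [sub_add_cancel] at h3

end Pool.Agent.GB
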