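import Pool.Agent.helper59.ZB.SpecH
import Pool.Agent.helper59.BR.HVN

/-!
# Row zbh:HVPT (MP_baa4d7_al): the valuation of the contributions, T-form
-/

set_option autoImplicit false

namespace Pool.Agent.GB

open Pool.Agent.helper58.DC Pool.Agent.DI Pool.Agent.GR Pool.Agent.OB Pool.Agent.DR Pool.Agent.FI Pool.Agent.FI3 Pool.Agent.FI4 Pool.Agent.LE Pool.Agent.BR

theorem HVPT (hHAX : HAX_stmt) (hHVAT : HVAT_stmt) (hHVNT : HVNT_stmt) (hQRS : QRS_stmt) (hQCE : QCE_stmt) (hC3 : C3_stmt)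
    (hB2 : B2_stmt) (hSBI : SBI_stmt) : HVPT_stmt := by
  classical
  intro p M hS G _ _ D T x θ χ hZ z hz ψ₀ hψ₀ hunit ψ hψ
  have hzD : z ∈ D := hZ.tle hz
  have hvn := hHVNT p M hS G D T x θ χ hZ z hz ψ₀ hψ₀ hunit
  obtain ⟨N, hN, hva⟩ := hHVAT p M hS G D T x θ χ hZ z hz
  have hax := hHAX p M hS G θ z ψ hψ.1 ψ₀ hψ₀.1
  obtain ⟨K, hKdef⟩ : ∃ K : Subgroup G, K = Cz (⊤ : Subgroup G) z := ⟨_, rfl⟩
  rw [← hKdef] at hvn hva hax
  have hzK : z ∈ K := by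
    rw [hKdef]
    exact ZAG_mem.2 rfl
  have hcen : Cen K z⁻¹ := fun l hl => by
    rw [hKdef] at hl
    have h1 : z * l = l * z := ZAG_mem.1 hl
    calc l * z⁻¹ = z⁻¹ * (z * l) * z⁻¹ := by group
      _ = z⁻¹ * (l * z) * z⁻¹ := by rw [h1]
      _ = z⁻¹ * l := by group
  have hfin : (Bl M K θ).Finite := (hB2 G K).1.subset fun ψ h => h.1
  rw [finsum_mem_eq_finite_toFinset_sum _ hfin] at hvn hax
  have hkI : ∀ η ∈ Bl M K θ, IntAt M (cc θ (kap p K η)) := by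
    intro η hη
    have h1 := (HVN_sbi hSBI hB2 hS hη.2 hη.1 (p := p)).intAt
    have h2 := IntAt.of_isIntegral hS (HVN_kap hC3 hB2 hη.1 hη.1 (p := p))
    have h3 := h2.sub hS h1
    rwa [sub_sub_cancel] at h3
  obtain ⟨S, hSdef⟩ : ∃ S : ℂ, S = ∑ η ∈ hfin.toFinset, mt K ψ₀ η * cc θ (kap p K η) := ⟨_, rfl⟩
  rw [← hSdef] at hvn
  have hSI : IntAt M S := by
    rw [hSdef]
    refine IntAt.sum hS _ fun η hη => ?_
    rw [Set.Finite.mem_toFinset] at hη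
    exact (HVN_mt hQRS hS hψ₀.1 hη.1).mul hS (hkI η hη)
  have hdiff : InM M ((Nat.card G : ℂ) * PP p M θ ψ ψ₀ z / ψ 1 - (N : ℂ) * S) := by
    have h1 : (Nat.card G : ℂ) * PP p M θ ψ ψ₀ z / ψ 1 - (N : ℂ) * S =
        ∑ η ∈ hfin.toFinset, mt K ψ₀ η * ((η z⁻¹ / η 1 - 1) * ((Nat.card G : ℂ) * az p K η ψ z / ψ 1) +
          ((Nat.card G : ℂ) * az p K η ψ z / ψ 1 - (N : ℂ) * cc θ (kap p K η))) := by
      rw [hax, hSdef, Finset.mul_sum, Finset.mul_sum, Finset.sum_div, ← Finset.sum_sub_distrib]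
      refine Finset.sum_congr rfl fun η _ => ?_
      ring
    rw [h1]
    refine InM.sum hS _ fun η hη => ?_
    rw [Set.Finite.mem_toFinset] at hη
    have h2 := hva η hη ψ hψ
    have h3 : IntAt M ((Nat.card G : ℂ) * az p K η ψ z / ψ 1) := by
      have h4 := h2.intAt.add hS ((IntAt.natCast hS N).mul hS (hkI η hη))
      rwa [sub_add_cancel] at h4
    have h5 := (HVN_rou hQCE hB2 hS hZ.rt.dfa.pgrp (D.inv_mem hzD) (K.inv_mem hzK) hcen hη.1).1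
    exact InM.mul_left hS (HVN_mt hQRS hS hψ₀.1 hη.1) (InM.add hS (InM.mul_right hS h5 h3) h2)
  constructor
  · have h1 := hdiff.intAt.add hS ((IntAt.natCast hS N).mul hS hSI)
    rwa [sub_add_cancel] at h1
  · intro h
    have h1 := h.sub hS hdiff
    rw [sub_sub_cancel] at h1
    rcases InM.or hS (IntAt.natCast hS N) hSI h1 with h2 | h2
    · exact hN ((InM.natCast hS N).1 h2)
    · exact hvn h2

end Pool.Agent.GB
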