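import Pool.Agent.helper59.BR.AllH
import Pool.Agent.helper58.ZB.AllN
import Pool.Agent.helper18.GB.EXZ
import Pool.Agent.helper79.GB.UNZ
import Pool.Agent.helper83.GB.FUZ
import Pool.Agent.helper59.ZB.HDT
import Pool.Agent.helper21.ZB.HTOT
import Pool.Agent.helper97.ZB.HPTT
import Pool.Agent.helper89.ZB.HPOT
import Pool.Agent.helper23.ZB.HWTT
import Pool.Agent.helper96.ZB.HBW
import Pool.Agent.helper23.ZB.PRW
import Pool.Agent.helper30.ZB.HL1T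
import Pool.Agent.helper97.ZB.HAIT
import Pool.Agent.helper97.ZB.HX0T
import Pool.Agent.helper59.ZB.HAGT
import Pool.Agent.helper26.ZB.HCTT
import Pool.Agent.helper51.ZB.HVAT
import Pool.Agent.helper59.ZB.HVNT
import Pool.Agent.helper59.ZB.HVPT
import Pool.Agent.helper59.ZB.HCNT
import Pool.Agent.helper67.ZB.HCMT
import Pool.Agent.helper23.ZB.HMZT
import Pool.Agent.helper58.ZB.HSMT
import Pool.Agent.helper31.ZB.HHTT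
import Pool.Agent.helper40.ZB.HHBT
import Pool.Agent.helper40.ZB.PSW

/-!
# Project ZB (MP_baa4d7_al), block H in the T-form, all primes: all rows without hypotheses

`hPS0P : ∀ p, PS0P p`, `hPROP : ∀ p, PROP p` are the output.
-/

set_option autoImplicit false

namespace Pool.Agent.GB.AllH

open Pool.Agent Pool.Agent.helper58.DC Pool.Agent.DI Pool.Agent.GR Pool.Agent.OB Pool.Agent.DR Pool.Agent.FI Pool.Agent.FI3 Pool.Agent.FI4 Pool.Agent.LE Pool.Agent.BR Pool.Agent.GB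

theorem hEXZ : EXZ_stmt := GB.EXZ AllA.dSYL AllA.dNCJ
theorem hUNZ : UNZ_stmt := GB.UNZ hEXZ AllA.dBQA Pool.Agent.FI.AllB.dIVS GR.All.dIDM GR.All.dEIN GR.All.dCVF GR.All.dCCI AllA.dSYL
theorem hFUZ : FUZ_stmt := GB.FUZ AllA.dEXB AllA.dCNTL GB.AllN.nDFZ hUNZ
theorem hHDT : HDT_stmt := GB.HDT AllA.dCLS AllA.dDCM AllA.dSYL
theorem hHTOT : HTOT_stmt := GB.HTOT BR.AllH.hHOR hFUZ AllC.cFEQ
theorem hHPTT : HPTT_stmt := GB.HPTT BR.AllH.hHGR AllC.cFEQ GR.All.dB2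
theorem hHPOT : HPOT_stmt := GB.HPOT BR.AllH.hHGR AllZ.zZAX AllQ1.qQEI AllA.dBLE BR.AllH.hHNR hHTOT GR.All.dB2
theorem hHWTT : HWTT_stmt := GB.HWTT
theorem hHBW : HBW_stmt := GB.HBW BR.AllH.hHBP
theorem hPROP : ∀ p : ℕ, PROP p := GB.PRW hHBW hHWTT hHPTT hHPOT GR.All.dB2
theorem hHL1T : HL1T_stmt := GB.HL1T BR.AllH.hHBP hHWTT hHPTT hHPOT BR.AllH.hHGR GR.All.dB2
theorem hHAIT : HAIT_stmt := GB.HAIT GB.AllN.nDFZ GR.All.dB2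
theorem hHX0T : HX0T_stmt := GB.HX0T AllZ.zZL1 AllA.dBLE AllA.dSBI AllA.dEXB AllQ1.qQEI GR.All.dB2
theorem hHAGT : HAGT_stmt :=
  GB.HAGT hHDT AllA.dVN1 AllA.dEXB AllA.dSBI AllQ1.qQEI AllQ1.qQCE AllC.cFEQ hFUZ GR.All.dB2 GR.All.dC3
theorem hHCTT : HCTT_stmt := GB.HCTT hFUZ GB.AllN.nNTB AllC.cFEQ
theorem hHVAT : HVAT_stmt := GB.HVAT hHAGT hHCTT GR.All.dB2
theorem hHVNT : HVNT_stmt :=
  GB.HVNT hHVAT hHAIT hHX0T AllZ.zZAX AllQ1.qQRS AllQ1.qQCE AllA.dSBI GR.All.dC3 GR.All.dB2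
theorem hHVPT : HVPT_stmt := GB.HVPT BR.AllH.hHAX hHVAT hHVNT AllQ1.qQRS AllQ1.qQCE GR.All.dC3 GR.All.dB2 AllA.dSBI
theorem hHCNT : HCNT_stmt := GB.HCNT hHDT AllA.dGDC AllA.dUNQ AllQ1.qQCE GR.All.dB2
theorem hHCMT : HCMT_stmt := GB.HCMT hHDT AllA.dVN1 AllQ1.qQCE GR.All.dB2
theorem hHMZT : HMZT_stmt := GB.HMZT AllQ1.qQEV GR.All.dB2
theorem hHSMT : HSMT_stmt := GB.HSMT hHDT AllA.dHTC AllA.dBLE AllA.dSBI AllA.dTPR AllQ1.qQCE GR.All.dB2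
theorem hHHTT : HHTT_stmt := GB.HHTT hHCNT hHCMT hHSMT hHMZT BR.AllH.hHFX hHAIT AllA.dBLE BR.AllH.hZT4 GR.All.dB2
theorem hHHBT : HHBT_stmt := GB.HHBT hHVPT GB.AllN.nPLT BR.AllH.hHNL hHL1T hHWTT GR.All.dB2
theorem hPS0P : ∀ p : ℕ, PS0P p := GB.PSW hHHTT hHHBT hHVPT GB.AllN.nPLT hHAIT GR.All.dB2

end Pool.Agent.GB.AllH
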