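import Pool.Agent.helper68.GB.AllG
import Pool.Agent.helper59.ZB.AllH

/-!
# Project ZB (MP_baa4d7_al): BOUND-Z for all primes, without hypotheses
-/

set_option autoImplicit false

namespace Pool.Agent.GB.AllL

/-- The bound of `l(B)` for the blocks of `G` with a defect group with a central subgroup of bounded index and rank. -/
theorem lBDP (p : ℕ) : BDP p := Pool.Agent.GB.AllN.nBDP AllG.gBPZ AllG.gCLZ p (AllH.hPS0P p) (AllH.hPROP p)

/-- The same for the blocks of the subgroups. -/
theorem lBLP (p : ℕ) : BLP p := Pool.Agent.GB.AllN.nBLP AllG.gBPZ AllG.gCLZ p (AllH.hPS0P p) (AllH.hPROP p)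

end Pool.Agent.GB.AllL
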