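import Mathlib
import Pool.Agent.helper58.ZB.SpecN
import Pool.Agent.helper59.BR.SpecH

/-!
# Project ZB (MP_baa4d7_al), BOUND-Z, block H in the T-FORM, all primes: the character `ψ₀`, valuations, projections

OUTPUT: `PS0P p` and `PROP p` of `helper58/ZB/DefsN`, for every `p`. Setting `ZS p M D T x θ χ` (`helper68/GB/Spec`): `D` any defect group of `B`, `T ≤ D ⊓ cz D` normalised by `nz D`.

THE ROWS ARE ADAPTATIONS OF BLOCK H of BOUND-R (`helper59/BR/SpecH`, abelian `D`, `u ∈ D`), now with `u ∈ T`. The general rows HAX HGR HNR HOR HBP HFX HNL are used unchanged. DICTIONARY: `LoA` -> `ZS` (or `RtZ`), `u ∈ D` -> `u ∈ T`; `lo.rt.dfa.pgrp` -> `hZ.rt.dfa.pgrp`; `lo.rt.th` -> `hZ.rt.th`; `ci`, `iI` -> `ciT`, `iT`; QFU4 -> `FUZ` of `helper68/GB/Spec`;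
`QCN4`, `Good` for `cz D` -> `HDT` (the block `b(θ)` of `cz D` has the central defect group `D ⊓ cz D`), with `VN1 HTC UNQ GDC` of `helper22/FI/SpecA`; `lo.bet` -> `NTB` (block N); the polynomial row PPL -> `PLT` (block N); `Gm2` -> `GmB` (only `cop`, `reg`, `one` are used). For `u ∈ T`: `K = Cz ⊤ u` contains `D` and `cz D`; `EXB` (`L = K`, `Q = D`), `DFZ` (`D` is a defect group of `b(θ)^K`).

RULES. File `Pool/Agent/<seat>/ZB/XXX.lean` with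

  import Pool.Agent.helper59.ZB.SpecH
  set_option autoImplicit false
  namespace Pool.Agent.GB
  open Pool.Agent.helper58.DC Pool.Agent.DI Pool.Agent.GR Pool.Agent.OB Pool.Agent.DR Pool.Agent.FI Pool.Agent.FI3 Pool.Agent.FI4 Pool.Agent.LE Pool.Agent.BR
  theorem XXX (hYYY : YYY_stmt) ... : XXX_stmt := ...
  end Pool.Agent.GB

auxiliary lemmas prefixed `XXX_`, no sorry, no double quotes in the file, no `convert`, no `congr!`. The rows named in the docstring are hypotheses; all rows of the older specs (proved) may be added as further hypotheses. Ready lemmas may be imported from the files named in the docstrings.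
-/

set_option autoImplicit false

namespace Pool.Agent.GB

open Pool.Agent.helper58.DC Pool.Agent.DI Pool.Agent.GR Pool.Agent.OB Pool.Agent.DR Pool.Agent.FI Pool.Agent.FI3 Pool.Agent.FI4 Pool.Agent.LE Pool.Agent.BR

section

variable {G : Type} [Group G]

/-- The multiplicity of the character `(d, c) ↦ θ₁ c` of `D × cz D` in `(d, c) ↦ ψ (d c)`. -/
noncomputable def mzT (D : Subgroup G) (θ₁ ψ : G → ℂ) : ℂ :=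
  (∑ᶠ c ∈ (cz D : Set G), (∑ᶠ d ∈ (D : Set G), ψ (d * c)) * θ₁ c⁻¹) / (Nat.card D * Nat.card (cz D))

end

/-! ## 1. The block `b(θ)` of `cz D` -/

/-- **HDT** (medium; from SYL, DCM, CLS, TPR, C3). `b(θ)` has the central defect group `Z = D ⊓ cz D`. Proof: `C = cz D`. As in ALP / DFL of `helper22/FI` (`helper59/GB/DFZ.lean`): `omega χ x` is not `InM`, so `omega θ x = cc θ (rsH C (cls ⊤ x))` is not, and by DCM there is `y ∈ C`, conjugate to `x` in `G`, with `¬ InM M (cc θ (cls C y))`.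
`D ≤ Cz ⊤ y`, `pp p (Cz ⊤ y) = pp p (Cz ⊤ x) = |D|` (SYL). `Z ≤ Cz C y'` for all `y' ∈ C` (`Z ≤ C`, and `C` centralises `Z ≤ D`): `min`. `card`: let `S ≤ Cz C y` be a `p`-subgroup with `pp p (Cz C y)` elements (SYL); `S ⊔ D` (`= S D`, as `S` centralises `D`) is a `p`-subgroup of `Cz ⊤ y`, so `|S| |D| / |S ⊓ D| ≤ |D|`,
`|S| ≤ |S ⊓ D| ≤ |Z|` (`S ≤ C`). -/
def HDT_stmt : Prop :=
  ∀ (p : ℕ) (M : Ideal (integralClosure ℤ ℂ)), Setup p M → ∀ (G : Type) [Group G] [Finite G] (D : Subgroup G) (x : G) (θ χ : G → ℂ),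
    RtZ p M D x θ χ → ∃ y : G, DefL p M (cz D) θ (D ⊓ cz D) y

/-! ## 2. Orthogonality -/

/-- **HTOT** (short; from HOR, FUZ, FEQ; ADAPTATION of HTO, `helper46/BR/HTO.lean`). Proof: if `g u g⁻¹ = u'` and `SB M (Cz ⊤ u') (cjF g η) η'` then `SB M (Cz ⊤ u') (cjF g θ) θ`, so (conjugation by `g⁻¹`) `SB M (Cz ⊤ u) θ (cjF g⁻¹ θ)`; `u`, `u' ∈ T ≤ D ⊓ cz D`, FUZ (`v = u`, `t = g`): `g = τ k`, `τ ∈ TT M D θ`, `k` commutes with `u`: `τ u τ⁻¹ = u'`. -/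
def HTOT_stmt : Prop :=
  ∀ (p : ℕ) (M : Ideal (integralClosure ℤ ℂ)), Setup p M → ∀ (G : Type) [Group G] [Finite G]
    (D T : Subgroup G) (x : G) (θ χ : G → ℂ), ZS p M D T x θ χ → ∀ u ∈ T, ∀ u' ∈ T, (∀ t ∈ TT M D θ, t * u * t⁻¹ ≠ u') →
    ∀ η ∈ Bl M (Cz (⊤ : Subgroup G) u) θ, ∀ η' ∈ Bl M (Cz (⊤ : Subgroup G) u') θ,
    ∑ᶠ ψ ∈ Bl M (⊤ : Subgroup G) θ, az p (Cz (⊤ : Subgroup G) u) η ψ u * (starRingEnd ℂ) (az p (Cz (⊤ : Subgroup G) u') η' ψ u') = 0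

/-- **HPTT** (short-medium; from HGR, FEQ, B2; ADAPTATION of HPT, `helper53/BR/HPT.lean`). Invariance under `TT`. (`u`, `t u t⁻¹ ∈ T ≤ D`, so `cz D ≤ Cz ⊤ (t u t⁻¹)`.) -/
def HPTT_stmt : Prop :=
  ∀ (p : ℕ) (M : Ideal (integralClosure ℤ ℂ)), Setup p M → ∀ (G : Type) [Group G] [Finite G]
    (D T : Subgroup G) (x : G) (θ χ : G → ℂ), ZS p M D T x θ χ → ∀ u ∈ T, ∀ t ∈ TT M D θ,
    ∀ ψ ∈ IrrOn (⊤ : Subgroup G), ∀ ψ' ∈ IrrOn (⊤ : Subgroup G), PP p M θ ψ ψ' (t * u * t⁻¹) = PP p M θ ψ ψ' u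

/-- **HPOT** (short; from HGR, ZAX, QEI, BLE, HNR, HTOT, B2; ADAPTATION of HPO, `helper73/BR/HPO.lean`). -/
def HPOT_stmt : Prop :=
  ∀ (p : ℕ) (M : Ideal (integralClosure ℤ ℂ)), Setup p M → ∀ (G : Type) [Group G] [Finite G]
    (D T : Subgroup G) (x : G) (θ χ : G → ℂ), ZS p M D T x θ χ → ∀ ψ₀ ∈ Bl M (⊤ : Subgroup G) θ, ∀ u ∈ T,
    ∑ᶠ ψ ∈ Bl M (⊤ : Subgroup G) θ, PP p M θ ψ ψ₀ u * (starRingEnd ℂ) (PP p M θ ψ ψ₀ u) = PP p M θ ψ₀ ψ₀ u ∧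
    ∀ u' ∈ T, (∀ t ∈ TT M D θ, t * u * t⁻¹ ≠ u') →
      ∑ᶠ ψ ∈ Bl M (⊤ : Subgroup G) θ, PP p M θ ψ ψ₀ u * (starRingEnd ℂ) (PP p M θ ψ ψ₀ u') = 0

/-- **HWTT** (short; group theory; ADAPTATION of HWT, `helper51/BR/HWT.lean`). `C₀ = TT ⊓ cz T ≤ Cz TT u` (`u ∈ T`). The number of the `u' = t u t⁻¹` is `|TT| / |Cz TT u|`, `|Cz TT u'| = |Cz TT u|`: the sum is `|TT| / |C₀| = iT`. -/
def HWTT_stmt : Prop :=
  ∀ (M : Ideal (integralClosure ℤ ℂ)) (G : Type) [Group G] [Finite G] (D T : Subgroup G) (θ : G → ℂ), ∀ u ∈ T,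
    ∑ᶠ u' ∈ {u' : G | ∃ t ∈ TT M D θ, t * u * t⁻¹ = u'}, ciT M D T θ u' = iT M D T θ ∧ (∃ c : ℝ, 1 ≤ c ∧ ciT M D T θ u = (c : ℂ)) ∧ 0 < iT M D T θ

/-- **HBW** (short-medium; PURE; from HBP). Bessel with weights. Proof: `∑_b ‖∑_u c u * a u b‖ ^ 2 = ∑_(u, u') c u * conj (c u') * ⟨a u, a u'⟩`, `⟨a u, a u'⟩ = a u b₀` for `r u u'`, `0` otherwise; its absolute value is at most `∑_u w u * (∑_(r u u') w u') * ‖a u b₀‖ = ∑_u w u * ‖a u b₀‖ ≤ 1` (HBP, second claim). -/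
def HBW_stmt : Prop :=
  ∀ (B : Type) [Fintype B] (Q : Type) [Fintype Q] (r : Q → Q → Prop) (w : Q → ℝ) (a : Q → B → ℂ) (b₀ : B), (∀ u, 0 ≤ w u) →
    (∀ u, ∑ᶠ u' ∈ {u' | r u u'}, w u' = 1) → (∀ u u', r u u' → a u' = a u) →
    (∀ u u', ¬ r u u' → ∑ b, a u b * (starRingEnd ℂ) (a u' b) = 0) → (∀ u, ∑ b, a u b * (starRingEnd ℂ) (a u b) = a u b₀) →
    ∀ c : Q → ℂ, (∀ u, ‖c u‖ ≤ w u) → ∑ b, ‖∑ u, c u * a u b‖ ^ 2 ≤ 1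

/-! **PRW** (short; from HBW, HWTT, HPTT, HPOT, B2; ADAPTATION of PRO, `helper81/BR/PRO.lean`). Theorem line `theorem PRW (hHBW : HBW_stmt) (hHWTT : HWTT_stmt) (hHPTT : HPTT_stmt) (hHPOT : HPOT_stmt) (hB2 : B2_stmt) : ∀ p : ℕ, PROP p`. Proof: `B` the block, `Q = T`, `r u u'` conjugacy under `TT` (`TT ≤ nz D`, `tnz`),
`HBW.w u = ciT u / iT`, `c u = ciT u * w u / iT`, `a u ψ = PP ψ ψ₀ u`. Multiply by `iT ^ 2`. -/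

/-- **HL1T** (short-medium; from HBP, HWTT, HPTT, HPOT, HGR, B2; ADAPTATION of HL1, `helper95/BR/HL1.lean`). -/
def HL1T_stmt : Prop :=
  ∀ (p : ℕ) (M : Ideal (integralClosure ℤ ℂ)), Setup p M → ∀ (G : Type) [Group G] [Finite G]
    (D T : Subgroup G) (x : G) (θ χ : G → ℂ), ZS p M D T x θ χ → ∀ ψ ∈ Bl M (⊤ : Subgroup G) θ, ∀ ψ' ∈ Bl M (⊤ : Subgroup G) θ,
    ∑ᶠ u ∈ (T : Set G), ‖ciT M D T θ u * PP p M θ ψ ψ' u‖ ≤ iT M D T θ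

/-! ## 3. Valuations -/

/-- **HAIT** (short-medium; from DFZ, SBI, B2, C3; compare KHT `Pool/Agent/*/FI4/KHT.lean` and the number `hA` in ZL4, `helper43/LZ/ZL4.lean`). Heights are `≥ 0`. Proof: `L = Cz ⊤ z ≥ D, cz D`; DFZ for `ψ = η` (`SB M L θ η`): `DefL p M L η D x'`: `cc η (cls L x') = (|L| / |Cz L x'|) η x' / η 1` is not `InM`, `|Cz L x'| = |D| s`, `p ∤ s`, `η x'` integral. So `|D| η 1 / |L| = η x' / (s cc η (cls L x'))` is `IntAt`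
(`IntAt.inv`). (For `z = 1`: `L = ⊤`.) -/
def HAIT_stmt : Prop :=
  ∀ (p : ℕ) (M : Ideal (integralClosure ℤ ℂ)), Setup p M → ∀ (G : Type) [Group G] [Finite G] (D : Subgroup G) (x : G) (θ χ : G → ℂ),
    RtZ p M D x θ χ → ∀ z ∈ D, z ∈ cz D → ∀ η ∈ Bl M (Cz (⊤ : Subgroup G) z) θ,
    IntAt M ((Nat.card D : ℂ) * η 1 / Nat.card (Cz (⊤ : Subgroup G) z))

/-- **HX0T** (medium; from ZL1, BLE, SBI, EXB, QEI, B2; ADAPTATION of ZX0, `Pool/Agent/*/LZ/ZX0.lean`, with `K = Cz ⊤ z ≥ D, cz D` in place of `cz P`; `K ⊓ cz D = cz D`). -/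
def HX0T_stmt : Prop :=
  ∀ (p : ℕ) (M : Ideal (integralClosure ℤ ℂ)), Setup p M → ∀ (G : Type) [Group G] [Finite G] (D : Subgroup G) (x : G) (θ χ : G → ℂ),
    RtZ p M D x θ χ → ∀ z ∈ D, z ∈ cz D → ∃ η₀ ∈ Bl M (Cz (⊤ : Subgroup G) z) θ, ¬ InM M (cc θ (kap p (Cz (⊤ : Subgroup G) z) η₀))

/-- **HAGT** (medium; from HDT, VN1, EXB, SBI, QEI, QCE, FEQ, FUZ, B2; ADAPTATION of ZAG, `helper59/LZ/ZAG.lean`). Proof: `K = Cz ⊤ z`, `w y = kap p K η₀ (z⁻¹ y)`, `A_g = θ(1)⁻¹ ∑_{x ∈ cz D} θ x * w (g⁻¹ x g)`, `u = g z g⁻¹`. (1) if `u ∉ D ⊓ cz D`: `w (g⁻¹ x g) ≠ 0`, `x ∈ cz D` imply that `x = u (g v g⁻¹)` has the `p`-part `u`, so `u ∈ cz D`, `u ∉ D` and `θ x = 0`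
(VN1 for `L = cz D` and its defect group `D ⊓ cz D`, HDT): `A_g = 0`. (2) `u ∈ D ⊓ cz D`: `Q = cjS g⁻¹ D`, `θ' = cjF g⁻¹ θ ∈ IrrOn (cz Q)`; `z ∈ Q` and `z` centralises `Q`, so `Q ≤ K`, `cz Q ≤ K`. As in ZAG: `A_g = cc θ' w`, EXB: `ψ' ∈ IrrOn K` with `SB M K θ' ψ'`, `A_g - cc ψ' w` is `InM`, `cc ψ' w = (ψ' z / ψ' 1) * cc ψ' (kap p K η₀)`; if not
`SB M K θ' θ` then it is `0` (QEI); otherwise it is congruent to `cc θ (kap η₀)`, and then `u ∈ T`: FUZ (`v = z`, `t = g`) gives `g = τ k`, `u = τ z τ⁻¹ ∈ T` (`tnz`). -/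
def HAGT_stmt : Prop :=
  ∀ (p : ℕ) (M : Ideal (integralClosure ℤ ℂ)), Setup p M → ∀ (G : Type) [Group G] [Finite G]
    (D T : Subgroup G) (x : G) (θ χ : G → ℂ), ZS p M D T x θ χ → ∀ z ∈ T, ∀ η₀ ∈ Bl M (Cz (⊤ : Subgroup G) z) θ, ∀ g : G,
    ((g * z * g⁻¹ ∉ T ∨ ¬ SB M (Cz (⊤ : Subgroup G) z) (cjF g⁻¹ θ) θ) → InM M (ag p (Cz (⊤ : Subgroup G) z) η₀ θ z g)) ∧
    (g * z * g⁻¹ ∈ T → SB M (Cz (⊤ : Subgroup G) z) (cjF g⁻¹ θ) θ →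
      InM M (ag p (Cz (⊤ : Subgroup G) z) η₀ θ z g - cc θ (kap p (Cz (⊤ : Subgroup G) z) η₀)))

/-- **HCTT** (short-medium; from FUZ, NTB, FEQ; ADAPTATION of ZCT, `Pool/Agent/*/LZ/ZCT.lean`). The set is `TT K`, `K = Cz ⊤ z` (`⊆`: FUZ with `v = z`, `t = g`; `⊇`: as in ZCT), of `N |K|` elements, `N = |TT : TT ⊓ K|`, a divisor of `|TT : D cz D|` (`D ⊔ cz D ≤ TT ⊓ K`), prime to `p` by NTB (`cz D ≤ TT`: `cz_le_TT`). -/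
def HCTT_stmt : Prop :=
  ∀ (p : ℕ) (M : Ideal (integralClosure ℤ ℂ)), Setup p M → ∀ (G : Type) [Group G] [Finite G]
    (D T : Subgroup G) (x : G) (θ χ : G → ℂ), ZS p M D T x θ χ → ∀ z ∈ T, ∃ N : ℕ, ¬ p ∣ N ∧
    {g : G | g * z * g⁻¹ ∈ T ∧ SB M (Cz (⊤ : Subgroup G) z) (cjF g⁻¹ θ) θ}.ncard = N * Nat.card (Cz (⊤ : Subgroup G) z)

/-- **HVAT** (short-medium; from HAGT, HCTT; ADAPTATION of HVA, `helper18/BR/HVA.lean`). -/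
def HVAT_stmt : Prop :=
  ∀ (p : ℕ) (M : Ideal (integralClosure ℤ ℂ)), Setup p M → ∀ (G : Type) [Group G] [Finite G]
    (D T : Subgroup G) (x : G) (θ χ : G → ℂ), ZS p M D T x θ χ → ∀ z ∈ T, ∃ N : ℕ, ¬ p ∣ N ∧
    ∀ η ∈ Bl M (Cz (⊤ : Subgroup G) z) θ, ∀ ψ ∈ Bl M (⊤ : Subgroup G) θ,
      InM M ((Nat.card G : ℂ) * az p (Cz (⊤ : Subgroup G) z) η ψ z / ψ 1 - (N : ℂ) * cc θ (kap p (Cz (⊤ : Subgroup G) z) η))

/-- **HVNT** (short-medium; from HVAT, HAIT, HX0T, ZAX, QRS, QCE, SBI, C3, B2; ADAPTATION of `helper59/BR/HVN.lean`: there `lo` is used only through HVA, HAI, ZX0 and `lo.rt.dfa.pgrp`). -/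
def HVNT_stmt : Prop :=
  ∀ (p : ℕ) (M : Ideal (integralClosure ℤ ℂ)), Setup p M → ∀ (G : Type) [Group G] [Finite G]
    (D T : Subgroup G) (x : G) (θ χ : G → ℂ), ZS p M D T x θ χ → ∀ z ∈ T, ∀ ψ₀ ∈ Bl M (⊤ : Subgroup G) θ,
    ¬ InM M ((Nat.card D : ℂ) * ψ₀ 1 / Nat.card G) →
    ¬ InM M (∑ᶠ η ∈ Bl M (Cz (⊤ : Subgroup G) z) θ, mt (Cz (⊤ : Subgroup G) z) ψ₀ η * cc θ (kap p (Cz (⊤ : Subgroup G) z) η))

/-- **HVPT** (short; from HAX, HVAT, HVNT, QRS, QCE, C3, B2, SBI; ADAPTATION of `helper59/BR/HVP.lean`). -/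
def HVPT_stmt : Prop :=
  ∀ (p : ℕ) (M : Ideal (integralClosure ℤ ℂ)), Setup p M → ∀ (G : Type) [Group G] [Finite G]
    (D T : Subgroup G) (x : G) (θ χ : G → ℂ), ZS p M D T x θ χ → ∀ z ∈ T, ∀ ψ₀ ∈ Bl M (⊤ : Subgroup G) θ,
    ¬ InM M ((Nat.card D : ℂ) * ψ₀ 1 / Nat.card G) → ∀ ψ ∈ Bl M (⊤ : Subgroup G) θ,
    IntAt M ((Nat.card G : ℂ) * PP p M θ ψ ψ₀ z / ψ 1) ∧ ¬ InM M ((Nat.card G : ℂ) * PP p M θ ψ ψ₀ z / ψ 1)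

/-! ## 4. The character `ψ₀` -/

/-- **HCNT** (short-medium; from HDT, GDC, UNQ or VN1, QCE, B2; ADAPTATION of HCN, `helper59/BR/HCN.lean`, with `Z = D ⊓ cz D` in place of `D`: `Good p M Z (cz D) θ` by GDC, `L = cz D ≤ cz Z`; the characters vanish at `u v`, `u ∈ cz D`, `u ∉ Z`, by VN1). The canonical character. -/
def HCNT_stmt : Prop :=
  ∀ (p : ℕ) (M : Ideal (integralClosure ℤ ℂ)), Setup p M → ∀ (G : Type) [Group G] [Finite G] (D : Subgroup G) (x : G) (θ χ : G → ℂ),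
    RtZ p M D x θ χ → ∃ θ₁ ∈ Bl M (cz D) θ, ∀ u ∈ D, u ∈ cz D → θ₁ u = θ₁ 1

/-- **HCMT** (short-medium; from HDT, VN1, QCE, B2; ADAPTATION of HCM, `helper67/BR/HCM.lean`; ZTH -> HDT and VN1; `u ∈ D` -> `u ∈ D ⊓ cz D`). -/
def HCMT_stmt : Prop :=
  ∀ (p : ℕ) (M : Ideal (integralClosure ℤ ℂ)), Setup p M → ∀ (G : Type) [Group G] [Finite G] (D : Subgroup G) (x : G) (θ χ : G → ℂ),
    RtZ p M D x θ χ → ∀ θ₁ ∈ Bl M (cz D) θ, (∀ u ∈ D, u ∈ cz D → θ₁ u = θ₁ 1) →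
    ∀ m : ℕ, GmB p (Nat.card G) m → PR m θ₁

/-- **HMZT** (short-medium; from QEV, B2). The multiplicity is a natural number. Proof: `i x = 1 / |D|` for `x ∈ D`, `0` otherwise: `cv i i = i`, `Inv (cz D) i`. QEV (`H = ⊤`, `H' = cz D`): `|D|⁻¹ ∑_(d ∈ D) ψ (c d) = ∑_(η ∈ IrrOn (cz D)) m η * η c` for `c ∈ cz D` (`c d = d c`); orthogonality (B2): `mzT D θ₁ ψ = m θ₁`. -/
def HMZT_stmt : Prop :=
  ∀ (G : Type) [Group G] [Finite G] (D : Subgroup G), ∀ θ₁ ∈ IrrOn (cz D), ∀ ψ ∈ IrrOn (⊤ : Subgroup G), ∃ n : ℕ, mzT D θ₁ ψ = n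

/-- **HSMT** (medium; from HDT, HTC, BLE, SBI, TPR, B2; ADAPTATION of HSM, `helper71/BR/HSM.lean`). Proof: `C = cz D`, `Z = D ⊓ C`, `e = eS ⊤ (Bl M ⊤ θ)`: `|G| * e x = ∑_(ψ ∈ Bl M ⊤ θ) ψ 1 * ψ x⁻¹`. So the sum is `|C|⁻¹ ∑_(c ∈ C) ∑_(d ∈ D) θ₁ c⁻¹ * e (d c)⁻¹`. `e y = 0` if `y` is not `p`-regular (BLE); `d c = c d`: if `v = d c` is `p`-regular then `d⁻¹` is the
`p`-part of `c = d⁻¹ v`: it is a power of `c`, so `d ∈ D ⊓ C = Z`. So only `d ∈ Z` matter, `v = d c ∈ C`, and `θ₁ c⁻¹ = θ₁ (d v⁻¹) = θ₁ v⁻¹` (QCE, `θ₁ d = θ₁ 1`). For every `v ∈ C` there are `|Z|` pairs `(d, c)`: the sum is `(|Z| / |C|) ∑_(v ∈ C) θ₁ v⁻¹ * e v⁻¹ = (|Z| θ₁ 1 / |C|) * cc θ₁ e`.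
The first factor is `1 / k`, `p ∤ k` (HTC for `L = C`, defect group `Z`, HDT). `cc θ₁ e - 1` is `InM`: `SB M ⊤ θ₁ θ` (TRNb, `C ≤ ⊤`), `χ ∈ Bl M ⊤ θ` (`RtZ.ind`, TPR) has `cc χ e = 1` (BLE), SBI. -/
def HSMT_stmt : Prop :=
  ∀ (p : ℕ) (M : Ideal (integralClosure ℤ ℂ)), Setup p M → ∀ (G : Type) [Group G] [Finite G] (D : Subgroup G) (x : G) (θ χ : G → ℂ),
    RtZ p M D x θ χ → ∀ θ₁ ∈ Bl M (cz D) θ, (∀ u ∈ D, u ∈ cz D → θ₁ u = θ₁ 1) →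
    ¬ InM M (∑ᶠ ψ ∈ Bl M (⊤ : Subgroup G) θ, mzT D θ₁ ψ * ((Nat.card D : ℂ) * ψ 1 / Nat.card G))

/-- **HHTT** (medium; from HCNT, HCMT, HSMT, HMZT, HFX, HAIT, BLE; ADAPTATION of HHT, `helper5/BR/HHT.lean`; `mt (cz D) ψ θ₁` -> `mzT D θ₁ ψ`). Invariance of the weight: `(d c) ^ m = d ^ m c ^ m` (`c` centralises `D`), `x ↦ x ^ m` permutes `D` and `cz D` (`m` is prime to `|G|`), `θ₁ c⁻¹ = θ₁ (c ^ m)⁻¹` (HCMT). `w ψ` is `IntAt`: HMZT, HAIT for `z = 1` (`Cz ⊤ 1 = ⊤`). `f ^ p ^ N = 1`: `m ^ (p ^ N) ≡ 1` modulo `|G|`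
(`GmB.one`, `GmB.reg`, every `p`). -/
def HHTT_stmt : Prop :=
  ∀ (p : ℕ) (M : Ideal (integralClosure ℤ ℂ)), Setup p M → ∀ (G : Type) [Group G] [Finite G] (D : Subgroup G) (x : G) (θ χ : G → ℂ),
    RtZ p M D x θ χ → ∀ m : ℕ, GmB p (Nat.card G) m →
    ∃ ψ₀ ∈ Bl M (⊤ : Subgroup G) θ, PR m ψ₀ ∧ ¬ InM M ((Nat.card D : ℂ) * ψ₀ 1 / Nat.card G)

/-! ## 5. The heights -/

/-- **HHBT** (medium; from HVPT, PLT, HNL, HL1T, HWTT; ADAPTATION of HHB, `helper23/BR/HHB.lean`). The heights. Sum over `u ∈ T` only: `|T| p ^ k totient n ≤ totient n * ∑_(u ∈ T) ‖|D| PP ψ ψ₀ u‖`, so `|T| p ^ k ≤ |D| ∑_u ‖ciT u * PP‖ ≤ |D| iT`, `|D| = |D : T| |T|`. -/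
def HHBT_stmt : Prop :=
  ∀ (p : ℕ) (M : Ideal (integralClosure ℤ ℂ)), Setup p M → ∀ (G : Type) [Group G] [Finite G]
    (D T : Subgroup G) (x : G) (θ χ : G → ℂ), ZS p M D T x θ χ → ∀ ψ₀ ∈ Bl M (⊤ : Subgroup G) θ,
    ¬ InM M ((Nat.card D : ℂ) * ψ₀ 1 / Nat.card G) → ∀ ψ ∈ Bl M (⊤ : Subgroup G) θ, ∀ d k : ℕ, ψ 1 = d → d ≠ 0 →
    padicValNat p (Nat.card G) + k = padicValNat p (Nat.card D) + padicValNat p d → p ^ k ≤ iT M D T θ * T.relIndex D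

/-! **PSW** (short-medium; from HHTT, HHBT, HVPT, PLT, HAIT; ADAPTATION of PS0, `helper44/BR/PS0.lean`). Theorem line `theorem PSW (hHHTT : HHTT_stmt) (hHHBT : HHBT_stmt) (hHVPT : HVPT_stmt) (hPLT : PLT_stmt) (hHAIT : HAIT_stmt) (hB2 : B2_stmt) : ∀ p : ℕ, PS0P p`. -/

end Pool.Agent.GB
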